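import Pool.Agent.H598.DG.Setup

set_option autoImplicit false

namespace Pool.Agent.H598.LF

open Pool.Agent.H598.FQ Pool.Agent.H598.DG

namespace TUnif

theorem two_pow_le {k : ℕ} : 2 ^ ((k - 1) * (k - 2)) ≤ 4 ^ (k * 2 ^ k) := by
  have h1 : (k - 1) * (k - 2) ≤ 2 * (k * 2 ^ k) := by
    have h2 : k < 2 ^ k := Nat.lt_two_pow_self
    calc (k - 1) * (k - 2) ≤ k * 2 ^ k := Nat.mul_le_mul (Nat.sub_le _ _) ((Nat.sub_le _ _).trans h2.le)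
      _ ≤ 2 * (k * 2 ^ k) := Nat.le_mul_of_pos_left _ (by norm_num)
  calc 2 ^ ((k - 1) * (k - 2)) ≤ 2 ^ (2 * (k * 2 ^ k)) := Nat.pow_le_pow_right (by norm_num) h1
    _ = 4 ^ (k * 2 ^ k) := by rw [pow_mul]; norm_num

theorem g_le {k : ℕ} (hk : 2 ≤ k) :
    2 ^ ((k - 1) * (k - 2)) * ((2 * k) ^ k) ^ (2 ^ (k - 1)) ≤ (8 * k) ^ (k * 2 ^ k) := by
  have h1 : ((2 * k) ^ k) ^ (2 ^ (k - 1)) ≤ (2 * k) ^ (k * 2 ^ k) := by
    rw [← pow_mul]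
    refine Nat.pow_le_pow_right (by omega) (Nat.mul_le_mul_left _ ?_)
    exact Nat.pow_le_pow_right (by norm_num) (Nat.sub_le _ _)
  calc 2 ^ ((k - 1) * (k - 2)) * ((2 * k) ^ k) ^ (2 ^ (k - 1))
      ≤ 4 ^ (k * 2 ^ k) * (2 * k) ^ (k * 2 ^ k) := Nat.mul_le_mul two_pow_le h1
    _ = (8 * k) ^ (k * 2 ^ k) := by rw [← mul_pow]; congr 1; ring

theorem g_sq_le {k q : ℕ} (hk : 2 ≤ k) (hq : (8 * k) ^ (2 * (k * 2 ^ k)) ≤ q) :
    (2 ^ ((k - 1) * (k - 2)) * ((2 * k) ^ k) ^ (2 ^ (k - 1))) ^ 2 ≤ q := by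
  refine le_trans (Nat.pow_le_pow_left (g_le hk) 2) (le_trans (le_of_eq ?_) hq)
  rw [mul_comm 2 (k * 2 ^ k)]
  exact (pow_mul (8 * k) (k * 2 ^ k) 2).symm

theorem q_ge {k q : ℕ} (hk : 2 ≤ k) (hq : (8 * k) ^ (2 * (k * 2 ^ k)) ≤ q) : 8 * k ≤ q := by
  refine le_trans ?_ hq
  refine Nat.le_self_pow ?_ _
  have : 0 < 2 ^ k := by positivity
  have : 0 < k * 2 ^ k := Nat.mul_pos (by omega) this
  omega

theorem C_le {k q : ℕ} (hk : 2 ≤ k) (hq : 8 * k ≤ q) (e κ B : ℕ) :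
    ((k - 1) + q ^ κ) * (4 * q ^ e * (2 * k)) ^ (2 ^ (k - 1)) * q ^ B ≤
      q ^ (κ + 2 + (e + 1) * 2 ^ (k - 1) + B) := by
  have hq1 : 1 ≤ q := by omega
  have h1 : (k - 1) + q ^ κ ≤ q ^ (κ + 2) := by
    have a1 : k - 1 ≤ q ^ (κ + 1) := by
      calc k - 1 ≤ q := by omega
        _ = q ^ 1 := (pow_one q).symm
        _ ≤ q ^ (κ + 1) := Nat.pow_le_pow_right hq1 (by omega)
    have a2 : q ^ κ ≤ q ^ (κ + 1) := Nat.pow_le_pow_right hq1 (by omega)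
    calc (k - 1) + q ^ κ ≤ 2 * q ^ (κ + 1) := by omega
      _ ≤ q * q ^ (κ + 1) := Nat.mul_le_mul_right _ (by omega)
      _ = q ^ (κ + 2) := by ring
  have h2 : (4 * q ^ e * (2 * k)) ^ (2 ^ (k - 1)) ≤ q ^ ((e + 1) * 2 ^ (k - 1)) := by
    rw [pow_mul]
    refine Nat.pow_le_pow_left ?_ _
    calc 4 * q ^ e * (2 * k) = 8 * k * q ^ e := by ring
      _ ≤ q * q ^ e := Nat.mul_le_mul_right _ hq
      _ = q ^ (e + 1) := by ring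
  calc ((k - 1) + q ^ κ) * (4 * q ^ e * (2 * k)) ^ (2 ^ (k - 1)) * q ^ B
      ≤ q ^ (κ + 2) * q ^ ((e + 1) * 2 ^ (k - 1)) * q ^ B :=
        Nat.mul_le_mul_right _ (Nat.mul_le_mul h1 h2)
    _ = q ^ (κ + 2 + (e + 1) * 2 ^ (k - 1) + B) := by
        rw [pow_add q (κ + 2 + (e + 1) * 2 ^ (k - 1)) B, pow_add q (κ + 2)]

theorem unif_growth {q C g c T : ℕ} (hq1 : 1 ≤ q) (hC : C ≤ q ^ c) (hg : g ^ 2 ≤ q)
    (hT : 2 * c ≤ T) : C * g ^ T ≤ q ^ T := by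
  rw [← Nat.pow_le_pow_iff_left (n := 2) (by norm_num)]
  calc (C * g ^ T) ^ 2 = C ^ 2 * (g ^ 2) ^ T := by ring
    _ ≤ (q ^ c) ^ 2 * q ^ T := Nat.mul_le_mul (Nat.pow_le_pow_left hC 2) (Nat.pow_le_pow_left hg T)
    _ = q ^ (2 * c + T) := by rw [← pow_mul, pow_add, mul_comm c 2]
    _ ≤ q ^ (T * 2) := Nat.pow_le_pow_right hq1 (by omega)
    _ = (q ^ T) ^ 2 := pow_mul _ _ _

end TUnif

/-- The numerical condition for the minor functionals, uniformly in `q`. -/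
theorem exists_T_unif {k : ℕ} (hk : 2 ≤ k) (e κ B : ℕ) :
    ∃ T₀ : ℕ, ∀ q : ℕ, (8 * k) ^ (2 * (k * 2 ^ k)) ≤ q → ∀ T, T₀ ≤ T → ∀ n, n ≤ T → T ≤ n + B →
      ((k - 1) + q ^ κ * 2 ^ ((k - 1) * (k - 2) * n)) *
      (4 * q ^ e * (2 * k) ^ (k * T + 1)) ^ (2 ^ (k - 1)) ≤ q ^ n := by
  refine ⟨2 * (κ + 2 + (e + 1) * 2 ^ (k - 1) + B), fun q hqk T hT n hn hnB => ?_⟩
  have hq8 := TUnif.q_ge hk hqk
  have hq : 0 < q := by omega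
  have h1 := TUnif.unif_growth hq (TUnif.C_le hk hq8 e κ B) (TUnif.g_sq_le hk hqk) hT
  set E := 2 ^ (k - 1) with hE
  have hqB : 0 < q ^ B := by positivity
  apply Nat.le_of_mul_le_mul_right _ hqB
  have h2 : 1 ≤ 2 ^ ((k - 1) * (k - 2) * T) := Nat.one_le_two_pow
  have h3 : (k - 1) + q ^ κ * 2 ^ ((k - 1) * (k - 2) * n)
      ≤ ((k - 1) + q ^ κ) * 2 ^ ((k - 1) * (k - 2) * T) := by
    rw [add_mul]
    apply Nat.add_le_add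
    · exact Nat.le_mul_of_pos_right _ h2
    · apply Nat.mul_le_mul_left
      exact Nat.pow_le_pow_right (by norm_num) (Nat.mul_le_mul_left _ hn)
  calc ((k - 1) + q ^ κ * 2 ^ ((k - 1) * (k - 2) * n)) *
      (4 * q ^ e * (2 * k) ^ (k * T + 1)) ^ E * q ^ B
      ≤ (((k - 1) + q ^ κ) * 2 ^ ((k - 1) * (k - 2) * T)) *
      (4 * q ^ e * (2 * k) ^ (k * T + 1)) ^ E * q ^ B :=
        Nat.mul_le_mul_right _ (Nat.mul_le_mul_right _ h3)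
    _ = ((k - 1) + q ^ κ) * (4 * q ^ e * (2 * k)) ^ E * q ^ B *
        (2 ^ ((k - 1) * (k - 2)) * ((2 * k) ^ k) ^ E) ^ T := by
        have e1 : (4 * q ^ e * (2 * k) ^ (k * T + 1)) ^ E
            = (4 * q ^ e * (2 * k)) ^ E * (((2 * k) ^ k) ^ E) ^ T := by
          have e2 : 4 * q ^ e * (2 * k) ^ (k * T + 1)
              = (4 * q ^ e * (2 * k)) * ((2 * k) ^ k) ^ T := by
            rw [pow_succ, pow_mul]; ring
          rw [e2, mul_pow (4 * q ^ e * (2 * k)), ← pow_mul ((2 * k) ^ k) T E,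
            ← pow_mul ((2 * k) ^ k) E T, mul_comm T E]
        have e3 : 2 ^ ((k - 1) * (k - 2) * T) = (2 ^ ((k - 1) * (k - 2))) ^ T := by
          rw [← pow_mul]
        rw [e1, e3, mul_pow (2 ^ ((k - 1) * (k - 2)))]
        ring
    _ ≤ q ^ T := h1
    _ ≤ q ^ (n + B) := Nat.pow_le_pow_right hq hnB
    _ = q ^ n * q ^ B := pow_add _ _ _

end Pool.Agent.H598.LF
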