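import Pool.Agent.H598.ZC.Main

set_option autoImplicit false

namespace Pool.Agent.H598.LF

namespace T2_252

theorem jacobson_int : IsJacobsonRing ℤ := by
  rw [isJacobsonRing_iff_prime_eq]
  intro P hP
  by_cases h : P = ⊥
  · rw [h, eq_bot_iff]
    intro x hx
    rw [Ideal.mem_jacobson_bot] at hx
    have h1 := hx x
    rw [Int.isUnit_iff] at h1
    rw [Ideal.mem_bot]
    rcases h1 with h1 | h1
    · have h2 : x * x = 0 := by linarith
      exact mul_self_eq_zero.1 h2
    · exfalso
      nlinarith [mul_self_nonneg x]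
  · have hm : P.IsMaximal := IsPrime.to_maximal_ideal h
    exact Ideal.jacobson_eq_self_of_isMaximal

/-- a field of finite type over the integers is finite -/
theorem finite_field (K : Type*) [Field K] [Algebra.FiniteType ℤ K] : Finite K := by
  have := jacobson_int
  have hfin : Module.Finite ℤ K := finite_of_finite_type_of_isJacobsonRing ℤ K
  obtain ⟨p, hp⟩ := CharP.exists K
  rcases CharP.char_is_prime_or_zero K p with hpr | h0
  · have : Fact p.Prime := ⟨hpr⟩
    let _ : Algebra (ZMod p) K := ZMod.algebra K p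
    have : Module.Finite (ZMod p) K := Module.Finite.of_restrictScalars_finite ℤ (ZMod p) K
    exact Module.finite_of_finite (ZMod p)
  · exfalso
    subst h0
    have hc : CharZero K := CharP.charP_to_charZero K
    have hinj : Function.Injective (algebraMap ℤ K) := by
      intro x y hxy
      simpa using hxy
    have : Algebra.IsIntegral ℤ K := Algebra.IsIntegral.of_finite ℤ K
    have hf : IsField ℤ := isField_of_isIntegral_of_isField hinj (Field.toIsField K)
    obtain ⟨y, hy⟩ := hf.mul_inv_cancel (two_ne_zero : (2 : ℤ) ≠ 0)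
    omega

theorem finite_field' (K : Type*) [Field K] [hA : Algebra ℤ K] (h : Algebra.FiniteType ℤ K) :
    Finite K := by
  have e : hA = Ring.toIntAlgebra K := Subsingleton.elim _ _
  subst e
  exact finite_field K

/-- a nontrivial ring of finite type over the integers has a finite residue field -/
theorem exists_max (R : Type*) [CommRing R] [Nontrivial R] [Algebra ℤ R] [Algebra.FiniteType ℤ R] :
    ∃ m : Ideal R, m.IsMaximal ∧ Finite (R ⧸ m) := by
  obtain ⟨m, hm⟩ := Ideal.exists_maximal R
  let _ : Field (R ⧸ m) := Ideal.Quotient.field m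
  have hft2 : Algebra.FiniteType ℤ (R ⧸ m) :=
    Algebra.FiniteType.of_surjective (Ideal.Quotient.mkₐ ℤ m) (Ideal.Quotient.mkₐ_surjective ℤ m)
  exact ⟨m, hm, finite_field' (R ⧸ m) hft2⟩

/-- a nontrivial ring of finite type over the integers has homomorphisms to large finite fields -/
theorem exists_hom (R : Type*) [CommRing R] [Nontrivial R] [Algebra ℤ R] [Algebra.FiniteType ℤ R]
    (B : ℕ) : ∃ (E : Type) (_ : Field E) (_ : Fintype E) (_ : R →+* E), B ≤ Fintype.card E := by
  classical
  obtain ⟨m, hm, hfin⟩ := exists_max R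
  let _ : Field (R ⧸ m) := Ideal.Quotient.field m
  let _ : Fintype (R ⧸ m) := Fintype.ofFinite _
  obtain ⟨E, hE, hA, hFD, hr⟩ := Pool.Agent.H598.ZC.exists_ext (R ⧸ m) (r := B + 1) (by omega)
  have hEf : Finite E := Module.finite_of_finite (R ⧸ m)
  let _ : Fintype E := Fintype.ofFinite E
  refine ⟨E, hE, inferInstance, (algebraMap (R ⧸ m) E).comp (Ideal.Quotient.mk m), ?_⟩
  rw [Module.card_eq_pow_finrank (K := R ⧸ m) (V := E), hr]
  have h2 : 2 ≤ Fintype.card (R ⧸ m) := Fintype.one_lt_card
  calc B ≤ 2 ^ B := Nat.lt_two_pow_self.le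
    _ ≤ 2 ^ (B + 1) := Nat.pow_le_pow_right (by norm_num) (by omega)
    _ ≤ _ := Nat.pow_le_pow_left h2 _

end T2_252

/-- A finitely generated subring of a field has homomorphisms into large finite fields. -/
theorem exists_finite_quotient {κ : Type*} [Field κ] (T : Finset κ) (B : ℕ) :
    ∃ (E : Type) (_ : Field E) (_ : Fintype E)
      (_ : Algebra.adjoin ℤ (T : Set κ) →+* E), B ≤ Fintype.card E := by
  have hft : Algebra.FiniteType ℤ (Algebra.adjoin ℤ (T : Set κ)) :=
    (Subalgebra.fg_iff_finiteType _).1 (Subalgebra.fg_adjoin_finset T)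
  exact T2_252.exists_hom (Algebra.adjoin ℤ (T : Set κ)) B

end Pool.Agent.H598.LF
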