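import Pool.Agent.H598.FI.Cyc

set_option autoImplicit false

namespace Pool.Agent.H598.LF

open Polynomial WithZero IsDedekindDomain Pool.Agent.H598.WA Pool.Agent.H598.FI

lemma t4_lt_one {x : WithZero (Multiplicative ℤ)} (hx : x < 1) : x ≤ exp (-1 : ℤ) := by
  by_cases h0 : x = 0
  · rw [h0]
    exact zero_le
  · rw [← exp_log h0] at hx ⊢
    rw [← exp_zero, exp_lt_exp] at hx
    rw [exp_le_exp]
    omega

/-- Over an algebraically closed field every unit is congruent to a constant. -/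
lemma t4_const {κ : Type*} [Field κ] [IsAlgClosed κ] (v : HeightOneSpectrum κ[X])
    {r : RatFunc κ} (hr : v.valuation (RatFunc κ) r ≤ 1) :
    ∃ c : κ, v.valuation (RatFunc κ) (algebraMap κ[X] (RatFunc κ) (C c) - r) ≤ exp (-1 : ℤ) := by
  obtain ⟨f, hf⟩ := HeightOneSpectrum.exists_valuation_sub_lt_of_integer v hr 1
  have hdeg : (gn v).degree = 1 := IsAlgClosed.degree_eq_one_of_irreducible κ (gn_irr v)
  obtain ⟨c0, hc0⟩ : ∃ c0 : κ, gn v = X - C c0 := by
    have h1 := (gn_monic v).eq_X_add_C (by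
      exact natDegree_eq_of_degree_eq_some hdeg)
    refine ⟨-(gn v).coeff 0, ?_⟩
    rw [C_neg, sub_neg_eq_add]
    exact h1
  refine ⟨f.eval c0, t4_lt_one ?_⟩
  have h2 : gn v ∣ C (f.eval c0) - f := by
    rw [hc0, dvd_iff_isRoot, IsRoot.def, eval_sub, eval_C, sub_self]
  have h3 := (int_lt_iff v _).2 h2
  have h4 : algebraMap κ[X] (RatFunc κ) (C (f.eval c0)) - r =
      algebraMap κ[X] (RatFunc κ) (C (f.eval c0) - f) + (algebraMap κ[X] (RatFunc κ) f - r) := by
    rw [map_sub]; ring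
  rw [h4]
  exact lt_of_le_of_lt (Valuation.map_add _ _ _) (max_lt h3 (by simpa using hf))

/-- Diagonal forms in `k + 1` variables have zeros over all completions of `κ(t)`, `κ` algebraically
closed. -/
theorem loc_point {κ : Type*} [Field κ] [IsAlgClosed κ] {k : ℕ} (hk : 1 ≤ k)
    (hkκ : ((k : ℕ) : κ) ≠ 0) {s : ℕ} (hs : k + 1 ≤ s) (a : Fin s → RatFunc κ)
    (ha : ∀ i, a i ≠ 0) (v : HeightOneSpectrum κ[X]) :
    ∃ y : Fin s → v.adicCompletion (RatFunc κ), y ≠ 0 ∧
      ∑ i, algebraMap (RatFunc κ) (v.adicCompletion (RatFunc κ)) (a i) * y i ^ k = 0 := by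
  classical
  have hV : ∀ i, v.valuation (RatFunc κ) (a i) ≠ 0 := fun i => (Valuation.ne_zero_iff _).2 (ha i)
  obtain ⟨n, hn⟩ : ∃ n : Fin s → ℤ, ∀ i, v.valuation (RatFunc κ) (a i) = exp (n i) :=
    ⟨fun i => log (v.valuation (RatFunc κ) (a i)), fun i => (exp_log (hV i)).symm⟩
  -- two indices
  have hk0 : (0 : ℤ) < k := by exact_mod_cast hk
  obtain ⟨i, j, hij, hmod⟩ : ∃ i j, i ≠ j ∧ n i % k = n j % k := by
    obtain ⟨i, j, hij, h1⟩ := Fintype.exists_ne_map_eq_of_card_lt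
      (fun i : Fin s => (⟨(n i % k).toNat, by
        have h1 := Int.emod_nonneg (n i) hk0.ne'
        have h2 := Int.emod_lt_of_pos (n i) hk0
        omega⟩ : Fin k)) (by simpa using (show k < s by omega))
    refine ⟨i, j, hij, ?_⟩
    have h3 := congrArg Fin.val h1
    simp only at h3
    have h4 := Int.emod_nonneg (n i) hk0.ne'
    have h5 := Int.emod_nonneg (n j) hk0.ne'
    omega
  obtain ⟨e, he⟩ : ∃ e : ℤ, n i = n j + k * e := by
    have h1 := Int.emod_add_mul_ediv (n i) k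
    have h2 := Int.emod_add_mul_ediv (n j) k
    refine ⟨n i / k - n j / k, ?_⟩
    rw [mul_sub]
    omega
  obtain ⟨p, hp⟩ : ∃ p : RatFunc κ, p = algebraMap κ[X] (RatFunc κ) (gn v) ^ (-e) := ⟨_, rfl⟩
  have hp0 : p ≠ 0 := by
    rw [hp]
    exact zpow_ne_zero _ (RatFunc.algebraMap_ne_zero (gn_irr v).ne_zero)
  have hpv : v.valuation (RatFunc κ) p = exp e := by
    rw [hp, map_zpow₀, val_gn_self, ← exp_zsmul]
    congr 1
    simp
  obtain ⟨b, hb⟩ : ∃ b : RatFunc κ, b = a j * p ^ k := ⟨_, rfl⟩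
  have hb0 : b ≠ 0 := by
    rw [hb]
    exact mul_ne_zero (ha j) (pow_ne_zero _ hp0)
  have hbv : v.valuation (RatFunc κ) b = v.valuation (RatFunc κ) (a i) := by
    rw [hb, map_mul, map_pow, hpv, hn j, hn i, ← exp_nsmul, ← exp_add]
    congr 1
    rw [he]
    simp
  have hrv : v.valuation (RatFunc κ) (-(a i / b)) ≤ 1 := by
    rw [Valuation.map_neg, map_div₀, hbv, div_self (hV i)]
  obtain ⟨c, hc⟩ := t4_const v hrv
  obtain ⟨z, hz⟩ := IsAlgClosed.exists_pow_nat_eq c (show 0 < k by omega)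
  obtain ⟨w, hw⟩ : ∃ w : RatFunc κ, w = p * algebraMap κ[X] (RatFunc κ) (C z) := ⟨_, rfl⟩
  have hsmall : v.valuation (RatFunc κ) (a i * 1 ^ k + a j * w ^ k) ≤
      exp (-1 : ℤ) * v.valuation (RatFunc κ) (a i) := by
    have h1 : a i * 1 ^ k + a j * w ^ k =
        (algebraMap κ[X] (RatFunc κ) (C c) - -(a i / b)) * b := by
      have h2 : w ^ k = p ^ k * algebraMap κ[X] (RatFunc κ) (C c) := by
        rw [hw, mul_pow, ← map_pow, ← C_pow, hz]
      have h3 : a i / b * b = a i := div_mul_cancel₀ _ hb0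
      rw [h2, sub_neg_eq_add, add_mul, h3, hb]
      ring
    rw [h1, map_mul, hbv]
    exact mul_le_mul' hc le_rfl
  -- the approximate zero
  obtain ⟨x, hx⟩ : ∃ x : Fin s → RatFunc κ, x = fun l => if l = i then 1 else if l = j then w else 0 :=
    ⟨_, rfl⟩
  have hxi : x i = 1 := by rw [hx]; simp
  have hxj : x j = w := by rw [hx]; simp [hij.symm]
  have hx0 : ∀ l, l ≠ i → l ≠ j → x l = 0 := by
    intro l h1 h2
    rw [hx]
    simp [h1, h2]
  have hsum : ∑ l, a l * x l ^ k = a i * 1 ^ k + a j * w ^ k := by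
    rw [← Finset.sum_subset (Finset.subset_univ {i, j}), Finset.sum_pair hij, hxi, hxj]
    intro l _ hl
    rw [Finset.mem_insert, Finset.mem_singleton, not_or] at hl
    rw [hx0 l hl.1 hl.2, zero_pow (by omega), mul_zero]
  obtain ⟨y, hy0, hy, -⟩ := exact_near (nt_fin v) hk (kv_fin hkκ v)
    (fun l => algebraMap (RatFunc κ) (v.adicCompletion (RatFunc κ)) (a l))
    (fun l => algebraMap (RatFunc κ) (v.adicCompletion (RatFunc κ)) (x l)) i
    ((_root_.map_ne_zero _).2 (ha i)) (by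
      rw [hxi, map_one]
      exact one_ne_zero) (M := 1) le_rfl (by
      have h1 : ∑ l, algebraMap (RatFunc κ) (v.adicCompletion (RatFunc κ)) (a l) *
          algebraMap (RatFunc κ) (v.adicCompletion (RatFunc κ)) (x l) ^ k =
          algebraMap (RatFunc κ) (v.adicCompletion (RatFunc κ)) (∑ l, a l * x l ^ k) := by
        rw [map_sum]
        exact Finset.sum_congr rfl fun l _ => by rw [map_mul, map_pow]
      have h2 : (Valued.v (algebraMap (RatFunc κ) (v.adicCompletion (RatFunc κ)) (a i) * 1 ^ k) :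
          WithZero (Multiplicative ℤ)) = v.valuation (RatFunc κ) (a i) := by
        rw [one_pow, mul_one, val_fin]
      rw [h1, val_fin, hsum, hxi, map_one, h2]
      exact hsmall)
  exact ⟨y, hy0, hy⟩

end Pool.Agent.H598.LF
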