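import Pool.Agent.H598.LF.Trans2
import Pool.Agent.H598.LF.Loc
import Pool.Agent.H598.FI.More

set_option autoImplicit false

/-!
# Weak approximation over `κ(t)`, `κ` algebraically closed
-/

namespace Pool.Agent.H598.LF

open Finset Polynomial WithZero IsDedekindDomain Pool.Agent.H598.FQ Pool.Agent.H598.DG
open Pool.Agent.H598.WA
open Pool.Agent.H598.FI hiding em fib_explicit

/-- Weak approximation for families of diagonal hypersurfaces over `κ(t)`. -/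
theorem lf_explicit {κ : Type*} [Field κ] [IsAlgClosed κ] [DecidableEq (RatFunc κ)] {k : ℕ}
    (hk : 2 ≤ k) (hch : ∀ i : ℕ, 1 ≤ i → i ≤ k → ((i : ℕ) : κ) ≠ 0) {m s : ℕ}
    (hs : 2 * k + 1 ≤ s)
    (a : Fin s → MvPolynomial (Fin m) (RatFunc κ)) (S : Finset (HeightOneSpectrum κ[X]))
    (P : ∀ v : HeightOneSpectrum κ[X], (Fin m → v.adicCompletion (RatFunc κ)) ×
      (Fin s → v.adicCompletion (RatFunc κ)))
    (ha : ∀ v, ∀ i, MvPolynomial.aeval (P v).1 (a i) ≠ 0) (hx0 : ∀ v, (P v).2 ≠ 0)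
    (hx : ∀ v, ∑ i, MvPolynomial.aeval (P v).1 (a i) * (P v).2 i ^ k = 0)
    (Pi : (Fin m → RatFunc.CompletionAtInfty κ) × (Fin s → RatFunc.CompletionAtInfty κ))
    (hai : ∀ i, MvPolynomial.aeval Pi.1 (a i) ≠ 0) (hxi0 : Pi.2 ≠ 0)
    (hxi : ∑ i, MvPolynomial.aeval Pi.1 (a i) * Pi.2 i ^ k = 0)
    (N : ∀ v : HeightOneSpectrum κ[X], Set ((Fin m → v.adicCompletion (RatFunc κ)) ×
      (Fin s → v.adicCompletion (RatFunc κ))))
    (hN : ∀ v, N v ∈ nhds (P v))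
    (Ni : Set ((Fin m → RatFunc.CompletionAtInfty κ) × (Fin s → RatFunc.CompletionAtInfty κ)))
    (hNi : Ni ∈ nhds Pi) :
    ∃ (c : Fin m → RatFunc κ) (z : Fin s → RatFunc κ), (∀ i, MvPolynomial.aeval c (a i) ≠ 0) ∧
      z ≠ 0 ∧ ∑ i, MvPolynomial.aeval c (a i) * z i ^ k = 0 ∧
      (∀ v ∈ S, ((fun j => algebraMap (RatFunc κ) (v.adicCompletion (RatFunc κ)) (c j)),
        (fun i => algebraMap (RatFunc κ) (v.adicCompletion (RatFunc κ)) (z i))) ∈ N v) ∧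
      ((fun j => algebraMap (RatFunc κ) (RatFunc.CompletionAtInfty κ) (c j)),
        (fun i => algebraMap (RatFunc κ) (RatFunc.CompletionAtInfty κ) (z i))) ∈ Ni := by
  obtain ⟨W, Wi, hW, hWi, hc⟩ := fib_explicit hk hch (core_alg hk hch) hs
    (fun a ha v => loc_point (show 1 ≤ k by omega) (hch k (by omega) le_rfl)
      (show k + 1 ≤ s by omega) a ha v) a S
    (fun v => (P v).1) (fun v => (P v).2) ha hx0 hx Pi.1 Pi.2 hai hxi0 hxi N hN Ni hNi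
  obtain ⟨c, hcS, hci⟩ := wa_affine S (fun v => (P v).1) Pi.1 W hW Wi hWi
  obtain ⟨z, h1, h2, h3, h4, h5⟩ := hc c hcS hci
  exact ⟨c, z, h1, h2, h3, h4, h5⟩

/-- Weak approximation for sums of forms in disjoint sets of variables. -/
theorem forms_lf {κ : Type*} [Field κ] [IsAlgClosed κ] [DecidableEq (RatFunc κ)] {k : ℕ}
    (hk : 2 ≤ k) (hch : ∀ i : ℕ, 1 ≤ i → i ≤ k → ((i : ℕ) : κ) ≠ 0) {s m : ℕ}
    (hs : 2 * k + 1 ≤ s)
    (Φ : Fin s → MvPolynomial (Fin m) (RatFunc κ)) (hΦ : ∀ i, (Φ i).IsHomogeneous k)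
    (β : Fin m → Fin s) (hβ : ∀ i, ∀ j ∈ (Φ i).vars, β j = i)
    (S : Finset (HeightOneSpectrum κ[X]))
    (y : ∀ v : HeightOneSpectrum κ[X], Fin m → v.adicCompletion (RatFunc κ))
    (ha : ∀ v, ∀ i, MvPolynomial.aeval (y v) (Φ i) ≠ 0)
    (hx : ∀ v, ∑ i, MvPolynomial.aeval (y v) (Φ i) = 0)
    (yi : Fin m → RatFunc.CompletionAtInfty κ)
    (hai : ∀ i, MvPolynomial.aeval yi (Φ i) ≠ 0)
    (hxi : ∑ i, MvPolynomial.aeval yi (Φ i) = 0)
    (N : ∀ v : HeightOneSpectrum κ[X], Set (Fin m → v.adicCompletion (RatFunc κ)))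
    (hN : ∀ v, N v ∈ nhds (y v))
    (Ni : Set (Fin m → RatFunc.CompletionAtInfty κ)) (hNi : Ni ∈ nhds yi) :
    ∃ c : Fin m → RatFunc κ, (∀ i, MvPolynomial.aeval c (Φ i) ≠ 0) ∧
      ∑ i, MvPolynomial.aeval c (Φ i) = 0 ∧
      (∀ v ∈ S, (fun j => algebraMap (RatFunc κ) (v.adicCompletion (RatFunc κ)) (c j)) ∈ N v) ∧
      (fun j => algebraMap (RatFunc κ) (RatFunc.CompletionAtInfty κ) (c j)) ∈ Ni := by
  obtain ⟨c, z, hz1, hz0, hz, hzS, hzi⟩ := lf_explicit hk hch hs Φ S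
    (fun v => (y v, fun _ => 1)) ha
    (fun v h0 => one_ne_zero (congrFun h0 (⟨0, by omega⟩ : Fin s)))
    (fun v => by simpa using hx v)
    (yi, fun _ => 1) hai (fun h0 => one_ne_zero (congrFun h0 (⟨0, by omega⟩ : Fin s)))
    (by simpa using hxi)
    _ (fun v => nhds_blocks β (y v) (N v) (hN v)) _ (nhds_blocks β yi Ni hNi)
  have hzne : ∀ i, z i ≠ 0 := by
    intro i h0
    apply hzi.1 i
    show algebraMap (RatFunc κ) (RatFunc.CompletionAtInfty κ) (z i) = 0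
    rw [h0, map_zero]
  have hsc : ∀ i, MvPolynomial.aeval (fun j => z (β j) * c j) (Φ i) =
      z i ^ k * MvPolynomial.aeval c (Φ i) := fun i =>
    aeval_blocks β (Φ i) i (hΦ i) (hβ i) z c
  refine ⟨fun j => z (β j) * c j, fun i => ?_, ?_, fun v hv => ?_, ?_⟩
  · rw [hsc]
    exact mul_ne_zero (pow_ne_zero _ (hzne i)) (hz1 i)
  · rw [← hz]
    exact Finset.sum_congr rfl (fun i _ => by rw [hsc, mul_comm])
  · have h1 := (hzS v hv).2
    simp only [map_mul]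
    exact h1
  · have h1 := hzi.2
    simp only [map_mul]
    exact h1

end Pool.Agent.H598.LF
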