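import Pool.Agent.H598.LF.Trans

set_option autoImplicit false

/-!
# Transfer from large finite fields to algebraically closed fields: lemmas over a ring
-/

namespace Pool.Agent.H598.LF

open Finset Polynomial Pool.Agent.H598.FQ Pool.Agent.H598.DG Pool.Agent.H598.WA

lemma sum_Fin_coeff {S : Type*} [Field S] {n : ℕ} {y : S[X]} (hy : y ∈ degreeLT S n) :
    ∑ j : Fin n, C (y.coeff j) * X ^ (j : ℕ) = y := by
  rw [Fin.sum_univ_eq_sum_range (fun j => C (y.coeff j) * X ^ j) n]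
  by_cases h0 : y = 0
  · simp [h0]
  have h1 : y.natDegree < n := by
    rw [mem_degreeLT] at hy
    exact (natDegree_lt_iff_degree_lt h0).2 hy
  exact (as_sum_range_C_mul_X_pow' y h1).symm

lemma Gen_of_coeff {A S : Type*} [CommRing A] [Field S] {s : ℕ} (k : ℕ) (n : Fin s → ℕ)
    (f : A →+* S) (a b : Fin s → A[X]) (N m : A[X]) (y : Fin s → S[X])
    (hy : ∀ i, y i ∈ degreeLT S (n i)) :
    Gen k n f a b N m (fun i j => (y i).coeff j) =
      ∑ i, (a i).map f * ((b i).map f + N.map f * y i) ^ k + m.map f := by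
  have h1 : ∀ i, ∑ j : Fin (n i), C ((y i).coeff j) * X ^ (j : ℕ) = y i := fun i =>
    sum_Fin_coeff (hy i)
  unfold Gen
  simp only [h1]

lemma sum_Fin_mem {S : Type*} [Field S] {n : ℕ} (y : Fin n → S) :
    ∑ j : Fin n, C (y j) * X ^ (j : ℕ) ∈ degreeLT S n := by
  refine Submodule.sum_mem _ (fun j _ => ?_)
  rw [mem_degreeLT]
  refine (degree_C_mul_X_pow_le _ _).trans_lt ?_
  exact_mod_cast j.2

/-- The generic polynomial. -/
noncomputable def GG {R : Type*} [CommRing R] {s : ℕ} (k : ℕ) (n : Fin s → ℕ)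
    (a b : Fin s → R[X]) (N m : R[X]) : (MvPolynomial (Σ i, Fin (n i)) R)[X] :=
  Gen k n (MvPolynomial.C : R →+* MvPolynomial (Σ i, Fin (n i)) R) a b N m
    (fun i j => MvPolynomial.X ⟨i, j⟩)

lemma GG_map {R κ : Type*} [CommRing R] [CommRing κ] (ι : R →+* κ) {s : ℕ} (k : ℕ)
    (n : Fin s → ℕ) (a b : Fin s → R[X]) (N m : R[X]) :
    (GG k n a b N m).map (MvPolynomial.map ι) =
      GG k n (fun i => (a i).map ι) (fun i => (b i).map ι) (N.map ι) (m.map ι) := by
  have hcomp : (MvPolynomial.map ι).comp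
      (MvPolynomial.C : R →+* MvPolynomial (Σ i, Fin (n i)) R) =
      (MvPolynomial.C : κ →+* MvPolynomial (Σ i, Fin (n i)) κ).comp ι :=
    RingHom.ext (fun x => by simp)
  unfold GG
  rw [Gen_map, hcomp, Gen_comp]
  simp only [MvPolynomial.map_X]

lemma GG_eval {R E : Type*} [CommRing R] [Field E] (φ : R →+* E) {s : ℕ} (k : ℕ)
    (n : Fin s → ℕ) (a b : Fin s → R[X]) (N m : R[X]) (y : Fin s → E[X])
    (hy : ∀ i, y i ∈ degreeLT E (n i)) :
    (GG k n a b N m).map (MvPolynomial.eval₂Hom φ (fun p => (y p.1).coeff p.2)) =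
      ∑ i, (a i).map φ * ((b i).map φ + N.map φ * y i) ^ k + m.map φ := by
  unfold GG
  rw [Gen_map, MvPolynomial.eval₂Hom_comp_C, ← Gen_of_coeff k n φ a b N m y hy]
  simp only [MvPolynomial.eval₂Hom_X']

lemma no_zero {R E : Type*} [CommRing R] [Field E] (φ : R →+* E) {s : ℕ} {k : ℕ}
    {n : Fin s → ℕ} (a b : Fin s → R[X]) (N m : R[X]) {L : ℕ}
    (h : Fin L → MvPolynomial (Σ i, Fin (n i)) R)
    (h1 : ∑ l : Fin L, h l * (GG k n a b N m).coeff l = 1)
    (y : Fin s → E[X]) (hy : ∀ i, y i ∈ degreeLT E (n i))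
    (h0 : ∑ i, (a i).map φ * ((b i).map φ + N.map φ * y i) ^ k + m.map φ = 0) : False := by
  rw [← GG_eval φ k n a b N m y hy] at h0
  have h5 := congrArg (MvPolynomial.eval₂Hom φ (fun p => (y p.1).coeff p.2)) h1
  rw [map_sum, map_one] at h5
  have h6 : ∀ l : Fin L, MvPolynomial.eval₂Hom φ (fun p => (y p.1).coeff p.2)
      (h l * (GG k n a b N m).coeff l) = 0 := by
    intro l
    rw [map_mul, ← coeff_map, h0, coeff_zero, mul_zero]
  rw [Finset.sum_eq_zero (fun l _ => h6 l)] at h5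
  exact zero_ne_one h5

lemma desc_null {R κ : Type*} [CommRing R] [CommRing κ] (ι : R →+* κ)
    (hι : Function.Injective ι) {s : ℕ} {k : ℕ} {n : Fin s → ℕ} (a b : Fin s → R[X])
    (N m : R[X]) {L : ℕ} (h : Fin L → MvPolynomial (Σ i, Fin (n i)) R)
    (h1 : ∑ l : Fin L, MvPolynomial.map ι (h l) *
      (GG k n (fun i => (a i).map ι) (fun i => (b i).map ι) (N.map ι) (m.map ι)).coeff l = 1) :
    ∑ l : Fin L, h l * (GG k n a b N m).coeff l = 1 := by
  apply MvPolynomial.map_injective ι hι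
  rw [map_sum, map_one, ← h1]
  refine Finset.sum_congr rfl (fun l _ => ?_)
  rw [map_mul, ← GG_map, coeff_map]

/-- The certificate for the insolubility over an algebraically closed field. -/
lemma cert {κ : Type*} [Field κ] [IsAlgClosed κ] {s : ℕ} {k : ℕ} (n : Fin s → ℕ)
    (a b : Fin s → κ[X]) (N m : κ[X])
    (hcon : ¬ ∃ y : Fin s → κ[X], (∀ i, y i ∈ degreeLT κ (n i)) ∧
        ∑ i, a i * (b i + N * y i) ^ k + m = 0) :
    ∃ (L : ℕ) (h : Fin L → MvPolynomial (Σ i, Fin (n i)) κ),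
      ∑ l : Fin L, h l * (GG k n a b N m).coeff l = 1 := by
  obtain ⟨G, hG⟩ : ∃ G, G = GG k n a b N m := ⟨_, rfl⟩
  have hns : ∀ y : (Σ i, Fin (n i)) → κ, ∃ l : Fin (G.natDegree + 1),
      MvPolynomial.eval y (G.coeff l) ≠ 0 := by
    intro y
    by_contra hc
    push Not at hc
    apply hcon
    have h0 : G.map (MvPolynomial.eval y) = 0 := by
      ext l
      rw [coeff_map, coeff_zero]
      by_cases hl : l < G.natDegree + 1
      · exact hc ⟨l, hl⟩
      · rw [coeff_eq_zero_of_natDegree_lt (by omega), map_zero]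
    rw [hG, GG, Gen_map] at h0
    have hid : (MvPolynomial.eval y).comp MvPolynomial.C = RingHom.id κ :=
      RingHom.ext (fun x => by simp)
    rw [hid] at h0
    unfold Gen at h0
    simp only [Polynomial.map_id, MvPolynomial.eval_X] at h0
    exact ⟨fun i => ∑ j : Fin (n i), C (y ⟨i, j⟩) * X ^ (j : ℕ),
      fun i => sum_Fin_mem (fun j : Fin (n i) => y ⟨i, j⟩), h0⟩
  obtain ⟨h, hh⟩ := null _ hns
  subst hG
  exact ⟨_, h, hh⟩

end Pool.Agent.H598.LF
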