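import Pool.Agent.H598.LF.Tr1

set_option autoImplicit false

/-!
# Transfer from large finite fields to algebraically closed fields: the core over a ring
-/

namespace Pool.Agent.H598.LF

open Finset Polynomial Pool.Agent.H598.FQ Pool.Agent.H598.DG Pool.Agent.H598.WA

/-- The solubility over one field with fixed data. -/
def CoreAt (E : Type*) [Field E] (k D A ρ J : ℕ) (e : Fin (2 * k + 1) → ℕ) (T₀ : ℕ) : Prop :=
  ∀ (a : Fin (2 * k + 1) → E[X]) (N : E[X]), N.Monic → N.natDegree = D →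
      (a 0 * N ^ (k - 1)).natDegree = A → (∀ i, a i ≠ 0) →
      (∀ i, ∀ ϖ : E[X], Irreducible ϖ → ϖ ∣ a i → ϖ ∣ N) →
      (∀ i, (a i).natDegree + k * e i ≤ ρ) →
      ∀ i₀ : Fin (2 * k + 1), (a i₀).natDegree + k * e i₀ = ρ →
      ∀ T, T₀ ≤ T → ∀ (b : Fin (2 * k + 1) → E[X]) (m : E[X]),
      (∀ i, (b i).natDegree = T + e i) →
      N ∣ ∑ i, a i * b i ^ k + m →
      (∑ i, a i * b i ^ k + m) ∈ degreeLT E (k * T + ρ - J) →
      (∀ ϖ : E[X], Irreducible ϖ → ϖ ∣ N → ∃ i, ¬ ϖ ∣ a i * b i) →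
      ∃ y : Fin (2 * k + 1) → E[X], (∀ i, y i ∈ degreeLT E (T + e i - J - N.natDegree)) ∧
        ∑ i, a i * (b i + N * y i) ^ k + m = 0

/-- The transfer over a ring. -/
lemma transfer {R κ E : Type*} [CommRing R] [Field κ] [Field E] (ι : R →+* κ)
    (hι : Function.Injective ι) (φ : R →+* E) {k : ℕ} {D A ρ J : ℕ}
    {e : Fin (2 * k + 1) → ℕ} {T₀ : ℕ} (hE : CoreAt E k D A ρ J e T₀)
    (a b r w : Fin (2 * k + 1) → R[X]) (N m q w0 : R[X]) (M : ℕ)
    (i1 : ∑ i, a i * b i ^ k + m = N * q) (i2 : ∀ i, N ^ M = a i * r i)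
    (i3 : w0 * N + ∑ i, w i * (a i * b i) = 1) (hN : N.Monic) (hND : N.natDegree = D)
    (hA : (a 0).natDegree + (k - 1) * D = A)
    (haE : ∀ i, ((a i).map φ).natDegree = (a i).natDegree)
    (hbE : ∀ i, ((b i).map φ).natDegree = (b i).natDegree)
    (hρ : ∀ i, (a i).natDegree + k * e i ≤ ρ) (i₀ : Fin (2 * k + 1))
    (hi₀ : (a i₀).natDegree + k * e i₀ = ρ) (T : ℕ) (hT : T₀ ≤ T)
    (hb : ∀ i, (b i).natDegree = T + e i)
    (hdeg : (∑ i, a i * b i ^ k + m).degree < ((k * T + ρ - J : ℕ) : WithBot ℕ))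
    {n : Fin (2 * k + 1) → ℕ} (hn : ∀ i, n i = T + e i - J - D) {L : ℕ}
    (h : Fin L → MvPolynomial (Σ i, Fin (n i)) κ)
    (hr : ∀ l, h l ∈ Set.range (MvPolynomial.map (σ := Σ i, Fin (n i)) ι))
    (hh : ∑ l : Fin L, h l *
      (GG k n (fun i => (a i).map ι) (fun i => (b i).map ι) (N.map ι) (m.map ι)).coeff l = 1) :
    False := by
  choose hR hhR using hr
  have h1 : ∑ l : Fin L, hR l * (GG k n a b N m).coeff l = 1 := by
    apply desc_null ι hι
    rw [← hh]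
    exact Finset.sum_congr rfl (fun l _ => by rw [hhR])
  have hNE : (N.map φ).Monic := hN.map φ
  have hNEd : (N.map φ).natDegree = D := by
    rw [hN.natDegree_map φ, hND]
  have haE0 : ∀ i, (a i).map φ ≠ 0 := by
    intro i h0
    have h1 := congrArg (Polynomial.map φ) (i2 i)
    rw [Polynomial.map_pow, Polynomial.map_mul, h0, zero_mul] at h1
    exact pow_ne_zero _ hNE.ne_zero h1
  have c1 : ((a 0).map φ * (N.map φ) ^ (k - 1)).natDegree = A := by
    rw [natDegree_mul (haE0 0) (pow_ne_zero _ hNE.ne_zero), natDegree_pow, hNEd, haE, hA]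
  have c2 : ∀ i, ∀ ϖ : E[X], Irreducible ϖ → ϖ ∣ (a i).map φ → ϖ ∣ N.map φ := by
    intro i ϖ hϖ hd
    have h1 := congrArg (Polynomial.map φ) (i2 i)
    rw [Polynomial.map_pow, Polynomial.map_mul] at h1
    have h2 : ϖ ∣ (N.map φ) ^ M := by
      rw [h1]
      exact Dvd.dvd.mul_right hd _
    exact hϖ.prime.dvd_of_dvd_pow h2
  have hsum : (∑ i, a i * b i ^ k + m).map φ =
      ∑ i, (a i).map φ * (b i).map φ ^ k + m.map φ := by
    simp only [Polynomial.map_add, Polynomial.map_sum, Polynomial.map_mul, Polynomial.map_pow]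
  have c3 : N.map φ ∣ ∑ i, (a i).map φ * (b i).map φ ^ k + m.map φ := by
    rw [← hsum, i1, Polynomial.map_mul]
    exact dvd_mul_right _ _
  have c4 : (∑ i, (a i).map φ * (b i).map φ ^ k + m.map φ) ∈ degreeLT E (k * T + ρ - J) := by
    rw [← hsum, mem_degreeLT]
    exact lt_of_le_of_lt degree_map_le hdeg
  have c5 : ∀ ϖ : E[X], Irreducible ϖ → ϖ ∣ N.map φ →
      ∃ i, ¬ ϖ ∣ (a i).map φ * (b i).map φ := by
    intro ϖ hϖ hd
    by_contra hc
    push Not at hc
    have h1 : w0.map φ * N.map φ + ∑ i, (w i).map φ * ((a i).map φ * (b i).map φ) = 1 := by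
      have h2 := congrArg (Polynomial.map φ) i3
      simpa only [Polynomial.map_add, Polynomial.map_sum, Polynomial.map_mul,
        Polynomial.map_one] using h2
    apply hϖ.not_isUnit
    apply isUnit_of_dvd_one
    rw [← h1]
    refine dvd_add (Dvd.dvd.mul_left hd _) (Finset.dvd_sum (fun i _ => ?_))
    exact Dvd.dvd.mul_left (hc i) _
  obtain ⟨y, hy1, hy2⟩ := hE (fun i => (a i).map φ) (N.map φ) hNE hNEd c1 haE0 c2
    (fun i => by rw [haE]; exact hρ i) i₀ (by rw [haE]; exact hi₀) T hT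
    (fun i => (b i).map φ) (m.map φ) (fun i => by rw [hbE]; exact hb i) c3 c4 c5
  refine no_zero φ a b N m hR h1 y (fun i => ?_) hy2
  have h2 := hy1 i
  rw [hNEd, ← hn i] at h2
  exact h2

end Pool.Agent.H598.LF
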