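import Pool.Agent.H598.LF.Unif
import Pool.Agent.H598.LF.Chain
import Pool.Agent.H598.LF.FinQ

set_option autoImplicit false

/-!
# Transfer from large finite fields to algebraically closed fields
-/

namespace Pool.Agent.H598.LF

open Finset Polynomial Pool.Agent.H598.FQ Pool.Agent.H598.DG Pool.Agent.H598.WA

section gen

variable {s : ℕ}

/-- The equation with unknown coefficients of the polynomials. -/
noncomputable def Gen {A S : Type*} [CommRing A] [CommRing S] (k : ℕ) (n : Fin s → ℕ) (f : A →+* S)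
    (a b : Fin s → A[X]) (N m : A[X]) (y : (i : Fin s) → Fin (n i) → S) : S[X] :=
  ∑ i, (a i).map f * ((b i).map f + N.map f * ∑ j : Fin (n i), C (y i j) * X ^ (j : ℕ)) ^ k +
    m.map f

lemma Gen_map {A S S' : Type*} [CommRing A] [CommRing S] [CommRing S'] (k : ℕ) (n : Fin s → ℕ)
    (f : A →+* S) (a b : Fin s → A[X]) (N m : A[X]) (y : (i : Fin s) → Fin (n i) → S)
    (g : S →+* S') :
    (Gen k n f a b N m y).map g = Gen k n (g.comp f) a b N m (fun i j => g (y i j)) := by
  unfold Gen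
  simp only [Polynomial.map_add, Polynomial.map_sum, Polynomial.map_mul, Polynomial.map_pow,
    Polynomial.map_map, Polynomial.map_C, Polynomial.map_X]

lemma Gen_comp {A B S : Type*} [CommRing A] [CommRing B] [CommRing S] (k : ℕ) (n : Fin s → ℕ)
    (g : A →+* B) (f : B →+* S) (a b : Fin s → A[X]) (N m : A[X])
    (y : (i : Fin s) → Fin (n i) → S) :
    Gen k n (f.comp g) a b N m y =
      Gen k n f (fun i => (a i).map g) (fun i => (b i).map g) (N.map g) (m.map g) y := by
  unfold Gen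
  simp only [Polynomial.map_map]

end gen

/-- The Nullstellensatz. -/
lemma null {κ : Type*} [Field κ] [IsAlgClosed κ] {σ : Type*} [Finite σ] {r : ℕ}
    (f : Fin r → MvPolynomial σ κ) (h : ∀ y : σ → κ, ∃ l, MvPolynomial.eval y (f l) ≠ 0) :
    ∃ g : Fin r → MvPolynomial σ κ, ∑ l, g l * f l = 1 := by
  have h1 : Ideal.span (Set.range f) = ⊤ := by
    by_contra hne
    obtain ⟨M, hM, hle⟩ := Ideal.exists_le_maximal _ hne
    obtain ⟨y, hy⟩ := (MvPolynomial.isMaximal_iff_eq_vanishingIdeal_singleton (K := κ)).1 hM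
    obtain ⟨l, hl⟩ := h y
    apply hl
    have h2 : f l ∈ M := hle (Ideal.subset_span ⟨l, rfl⟩)
    rw [hy, MvPolynomial.mem_vanishingIdeal_singleton_iff] at h2
    rw [← MvPolynomial.coe_aeval_eq_eval]
    exact h2
  have h2 : (1 : MvPolynomial σ κ) ∈ Ideal.span (Set.range f) := by
    rw [h1]
    exact Submodule.mem_top
  exact Ideal.mem_span_range_iff_exists_fun.1 h2

/-- An element whose prime factors divide `N` divides a power of `N`. -/
lemma dvd_pow_of {κ : Type*} [Field κ] {a N : κ[X]} (ha : a ≠ 0)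
    (h : ∀ ϖ : κ[X], Irreducible ϖ → ϖ ∣ a → ϖ ∣ N) : ∃ M : ℕ, a ∣ N ^ M := by
  induction a using WfDvdMonoid.induction_on_irreducible with
  | zero => exact absurd rfl ha
  | unit u hu => exact ⟨0, by rw [pow_zero]; exact hu.dvd⟩
  | mul a p ha0 hp ih =>
    obtain ⟨M, hM⟩ := ih ha0 (fun ϖ h1 h2 => h ϖ h1 (h2.mul_left _))
    exact ⟨M + 1, by
      rw [pow_succ, mul_comm p a]
      exact mul_dvd_mul hM (h p hp (dvd_mul_right _ _))⟩

/-- A Bezout identity. -/
lemma bezout {κ : Type*} [Field κ] {s : ℕ} {N : κ[X]} (hN : N ≠ 0) (c : Fin s → κ[X])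
    (h : ∀ ϖ : κ[X], Irreducible ϖ → ϖ ∣ N → ∃ i, ¬ ϖ ∣ c i) :
    ∃ (w0 : κ[X]) (w : Fin s → κ[X]), w0 * N + ∑ i, w i * c i = 1 := by
  classical
  have h1 : Ideal.span {N} ⊔ Ideal.span (Set.range c) = ⊤ := by
    by_contra hne
    obtain ⟨M, hM, hle⟩ := Ideal.exists_le_maximal _ hne
    have hMP : M.IsPrime := hM.isPrime
    have hg := IsPrincipalIdealRing.principal M
    obtain ⟨g, hg⟩ := hg
    have hNM : N ∈ M := hle (Ideal.mem_sup_left (Ideal.mem_span_singleton_self _))
    have hgN : g ∣ N := by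
      rw [hg, Ideal.submodule_span_eq, Ideal.mem_span_singleton] at hNM
      exact hNM
    have hg0 : g ≠ 0 := by
      rintro rfl
      exact hN (zero_dvd_iff.1 hgN)
    have hgp : Prime g := by
      rw [← Ideal.span_singleton_prime hg0, ← Ideal.submodule_span_eq, ← hg]
      exact hMP
    obtain ⟨i, hi⟩ := h g hgp.irreducible hgN
    apply hi
    have h2 : c i ∈ M := hle (Ideal.mem_sup_right (Ideal.subset_span ⟨i, rfl⟩))
    rw [hg, Ideal.submodule_span_eq, Ideal.mem_span_singleton] at h2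
    exact h2
  have h2 : (1 : κ[X]) ∈ Ideal.span {N} ⊔ Ideal.span (Set.range c) := by
    rw [h1]
    exact Submodule.mem_top
  obtain ⟨x, hx, y, hy, hxy⟩ := Submodule.mem_sup.1 h2
  obtain ⟨w0, hw0⟩ := Ideal.mem_span_singleton'.1 hx
  obtain ⟨w, hw⟩ := Ideal.mem_span_range_iff_exists_fun.1 hy
  exact ⟨w0, w, by rw [hw0, hw, hxy]⟩

end Pool.Agent.H598.LF
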