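import Pool.Agent.H598.LF.Tr2

set_option autoImplicit false

/-!
# Transfer from large finite fields to algebraically closed fields: the theorem
-/

namespace Pool.Agent.H598.LF

open Finset Polynomial Pool.Agent.H598.FQ Pool.Agent.H598.DG Pool.Agent.H598.WA

universe u

lemma exists_ring {κ : Type u} [Field κ] (T : Finset κ) (B : ℕ) :
    ∃ (R : Type u) (_ : CommRing R) (ι : R →+* κ) (E : Type) (_ : Field E) (_ : Fintype E)
      (_ : R →+* E), Function.Injective ι ∧ (∀ c ∈ T, ∃ c' : R, ι c' = c) ∧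
        B ≤ Fintype.card E := by
  obtain ⟨E, hE, hEf, φ, hcard⟩ := exists_finite_quotient T B
  refine ⟨Algebra.adjoin ℤ (T : Set κ), inferInstance,
    algebraMap (Algebra.adjoin ℤ (T : Set κ)) κ, E, hE, hEf, φ, ?_, ?_, hcard⟩
  · exact fun x y hxy => Subtype.ext hxy
  · intro c hc
    exact ⟨⟨c, Algebra.subset_adjoin (by exact_mod_cast hc)⟩, rfl⟩

lemma unit_of {R κ E : Type*} [CommRing R] [Field κ] [Field E] (ι : R →+* κ)
    (hι : Function.Injective ι) (φ : R →+* E) {c : κ} (hc : c ≠ 0) (hT : ∃ d : R, ι d = c⁻¹)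
    (c' : R) (hc' : ι c' = c) : φ c' ≠ 0 := by
  intro h0
  obtain ⟨d, hd⟩ := hT
  have h1 : c' * d = 1 := by
    apply hι
    rw [map_mul, hc', hd, map_one]
    exact mul_inv_cancel₀ hc
  have h2 := congrArg φ h1
  rw [map_mul, h0, zero_mul, map_one] at h2
  exact zero_ne_one h2

lemma deg_of {R κ E : Type*} [CommRing R] [Field κ] [Field E] (ι : R →+* κ)
    (hι : Function.Injective ι) (φ : R →+* E) {p : κ[X]} (hp : p ≠ 0)
    (hT : ∃ d : R, ι d = p.leadingCoeff⁻¹) (p' : R[X]) (hp' : p'.map ι = p) :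
    (p'.map φ).natDegree = p'.natDegree := by
  apply natDegree_map_of_leadingCoeff_ne_zero
  refine unit_of ι hι φ (leadingCoeff_ne_zero.2 hp) hT _ ?_
  have h1 : p.natDegree = p'.natDegree := by
    rw [← hp']
    exact natDegree_map_eq_of_injective hι p'
  rw [leadingCoeff, leadingCoeff, h1, ← hp', coeff_map]

lemma lift_of {R κ : Type*} [CommRing R] [Field κ] (ι : R →+* κ) (p : κ[X])
    (h : ∀ c ∈ p.coeffs, ∃ c' : R, ι c' = c) : ∃ p' : R[X], p'.map ι = p := by
  rw [← Polynomial.mem_lifts, Polynomial.lifts_iff_coeff_lifts]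
  intro l
  by_cases h0 : p.coeff l = 0
  · exact ⟨0, by rw [h0, map_zero]⟩
  · exact h _ (Polynomial.coeff_mem_coeffs h0)

lemma lift_mv {R κ σ : Type*} [CommRing R] [Field κ] (ι : R →+* κ) (p : MvPolynomial σ κ)
    (h : ∀ c ∈ p.coeffs, ∃ c' : R, ι c' = c) :
    p ∈ Set.range (MvPolynomial.map (σ := σ) ι) := by
  rw [MvPolynomial.mem_range_map_iff_coeffs_subset]
  intro c hc
  exact h c hc

/-- An algebraically closed field of characteristic `0` or larger than `k` has `CoreProp`. -/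
theorem core_alg {κ : Type u} [Field κ] [IsAlgClosed κ] {k : ℕ} (hk : 2 ≤ k)
    (hch : ∀ i : ℕ, 1 ≤ i → i ≤ k → ((i : ℕ) : κ) ≠ 0) : CoreProp κ k := by
  classical
  intro a N hN ha hrad e ρ hρ i₀ hi₀ J
  obtain ⟨T₀, hT₀⟩ := core_unif hk N.natDegree ((a 0).natDegree + (k - 1) * N.natDegree) ρ J e
  refine ⟨T₀ + 1, fun T hT1 b m hb hdvd hdeg hloc => ?_⟩
  by_contra hcon
  have hbz : ∀ i, b i ≠ 0 := by
    intro i h0
    have h1 := hb i
    rw [h0, natDegree_zero] at h1
    omega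
  -- the certificates
  obtain ⟨q, hq⟩ := hdvd
  have hrM : ∃ (M : ℕ) (r : Fin (2 * k + 1) → κ[X]), ∀ i, N ^ M = a i * r i := by
    choose M hM using fun i => dvd_pow_of (ha i) (hrad i)
    have h2 : ∀ i, a i ∣ N ^ (∑ i, M i) := fun i =>
      (hM i).trans (pow_dvd_pow _ (Finset.single_le_sum (f := M) (fun _ _ => Nat.zero_le _)
        (Finset.mem_univ i)))
    choose r hr using h2
    exact ⟨_, r, hr⟩
  obtain ⟨M, r, hr⟩ := hrM
  obtain ⟨w0, w, hw⟩ := bezout hN.ne_zero (fun i => a i * b i) hloc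
  obtain ⟨L, h, hh⟩ := cert (fun i => T + e i - J - N.natDegree) a b N m hcon
  -- the finitely generated ring
  obtain ⟨PS, hPS⟩ : ∃ PS : Finset κ[X], PS = {N, m, q, w0} ∪ univ.image a ∪ univ.image b ∪
    univ.image r ∪ univ.image w := ⟨_, rfl⟩
  obtain ⟨T', hT'⟩ : ∃ T' : Finset κ, T' = PS.biUnion (fun p => p.coeffs) ∪
      univ.biUnion (fun l => (h l).coeffs) ∪ univ.image (fun i => (a i).leadingCoeff⁻¹) ∪
      univ.image (fun i => (b i).leadingCoeff⁻¹) ∪
      (Finset.Icc 1 k).image (fun i => ((i : ℕ) : κ)⁻¹) := ⟨_, rfl⟩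
  obtain ⟨R, _, ι, E, hE, hEf, φ, hι, hRT, hcard⟩ :=
    exists_ring T' ((8 * k) ^ (2 * (k * 2 ^ k)))
  have lift : ∀ p ∈ PS, ∃ p' : R[X], p'.map ι = p := by
    intro p hp
    refine lift_of ι p (fun c hc => hRT c ?_)
    rw [hT']
    simp only [Finset.mem_union, Finset.mem_biUnion]
    exact Or.inl (Or.inl (Or.inl (Or.inl ⟨p, hp, hc⟩)))
  obtain ⟨NR, hNR⟩ := lift N (by rw [hPS]; simp)
  obtain ⟨mR, hmR⟩ := lift m (by rw [hPS]; simp)
  obtain ⟨qR, hqR⟩ := lift q (by rw [hPS]; simp)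
  obtain ⟨w0R, hw0R⟩ := lift w0 (by rw [hPS]; simp)
  choose aR haR using fun i => lift (a i) (by rw [hPS]; simp)
  choose bR hbR using fun i => lift (b i) (by rw [hPS]; simp)
  choose rR hrR using fun i => lift (r i) (by rw [hPS]; simp)
  choose wR hwR using fun i => lift (w i) (by rw [hPS]; simp)
  have hhr : ∀ l, h l ∈ Set.range (MvPolynomial.map ι) := by
    intro l
    refine lift_mv ι (h l) (fun c hc => hRT c ?_)
    rw [hT']
    simp only [Finset.mem_union, Finset.mem_biUnion]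
    exact Or.inl (Or.inl (Or.inl (Or.inr ⟨l, Finset.mem_univ l, hc⟩)))
  have haT : ∀ i, ∃ d : R, ι d = ((a i).leadingCoeff)⁻¹ := by
    intro i
    apply hRT
    rw [hT']
    simp only [Finset.mem_union]
    exact Or.inl (Or.inl (Or.inr (Finset.mem_image_of_mem _ (Finset.mem_univ i))))
  have hbT : ∀ i, ∃ d : R, ι d = ((b i).leadingCoeff)⁻¹ := by
    intro i
    apply hRT
    rw [hT']
    simp only [Finset.mem_union]
    exact Or.inl (Or.inr (Finset.mem_image_of_mem _ (Finset.mem_univ i)))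
  have hiT : ∀ i : ℕ, 1 ≤ i → i ≤ k → ∃ d : R, ι d = ((i : ℕ) : κ)⁻¹ := by
    intro i hi1 hi2
    apply hRT
    rw [hT']
    simp only [Finset.mem_union]
    exact Or.inr (Finset.mem_image_of_mem _ (Finset.mem_Icc.2 ⟨hi1, hi2⟩))
  have hιP : Function.Injective (Polynomial.map ι) := Polynomial.map_injective ι hι
  -- the identities over the ring
  have i1 : ∑ i, aR i * bR i ^ k + mR = NR * qR := by
    apply hιP
    simp only [Polynomial.map_add, Polynomial.map_sum, Polynomial.map_mul, Polynomial.map_pow,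
      haR, hbR, hmR, hNR, hqR]
    exact hq
  have i2 : ∀ i, NR ^ M = aR i * rR i := by
    intro i
    apply hιP
    simp only [Polynomial.map_mul, Polynomial.map_pow, haR, hNR, hrR]
    exact hr i
  have i3 : w0R * NR + ∑ i, wR i * (aR i * bR i) = 1 := by
    apply hιP
    simp only [Polynomial.map_add, Polynomial.map_sum, Polynomial.map_mul,
      haR, hbR, hNR, hw0R, hwR, Polynomial.map_one]
    exact hw
  have hNRm : NR.Monic := by
    apply monic_of_injective hι
    rw [hNR]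
    exact hN
  have hdR : ∀ (p : κ[X]) (p' : R[X]), p'.map ι = p → p'.natDegree = p.natDegree := by
    intro p p' hp'
    rw [← hp']
    exact (natDegree_map_eq_of_injective hι p').symm
  have hchE : ∀ i : ℕ, 1 ≤ i → i ≤ k → ((i : ℕ) : E) ≠ 0 := by
    intro i hi1 hi2
    have h1 := unit_of ι hι φ (hch i hi1 hi2) (hiT i hi1 hi2) (i : R) (by rw [map_natCast])
    rw [map_natCast] at h1
    exact h1
  have hEat : CoreAt E k N.natDegree ((a 0).natDegree + (k - 1) * N.natDegree) ρ J e T₀ :=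
    hT₀ E hchE hcard
  refine transfer ι hι φ hEat aR bR rR wR NR mR qR w0R M i1 i2 i3 hNRm (hdR N NR hNR)
    (by rw [hdR (a 0) (aR 0) (haR 0)])
    (fun i => deg_of ι hι φ (ha i) (haT i) (aR i) (haR i))
    (fun i => deg_of ι hι φ (hbz i) (hbT i) (bR i) (hbR i))
    (fun i => by rw [hdR (a i) (aR i) (haR i)]; exact hρ i) i₀
    (by rw [hdR (a i₀) (aR i₀) (haR i₀)]; exact hi₀) T (by omega)
    (fun i => by rw [hdR (b i) (bR i) (hbR i)]; exact hb i) ?_
    (n := fun i => T + e i - J - N.natDegree) (fun _ => rfl) h hhr ?_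
  · have h2 : (∑ i, aR i * bR i ^ k + mR).map ι = ∑ i, a i * b i ^ k + m := by
      simp only [Polynomial.map_add, Polynomial.map_sum, Polynomial.map_mul,
        Polynomial.map_pow, haR, hbR, hmR]
    rw [← degree_map_eq_of_injective hι, h2]
    exact mem_degreeLT.1 hdeg
  · simp only [haR, hbR, hNR, hmR]
    exact hh

end Pool.Agent.H598.LF
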